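import Pool.Agent.W301.RM.Roots

/-!
# The digits of almost all square roots

Let `N` be the number of digits considered and `M ≥ b^(η N)`, `η > 0` arbitrarily small. For all but
`b^(-c N) M` of the integers `m < M` every block of `k` digits has the right frequency in all initial
segments of the first `N` digits of `√m`. The same for `ξ m ^ κ + P(m)`, where `ξ ≠ 0`, `κ > 0` is not
an integer and `P` is a real polynomial.
-/

set_option autoImplicit false

namespace Pool.Agent.Results.MP_0308e6_nt.AlmostAllRoots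

open Finset Polynomial

open Classical in
/-- Let `b ≥ 2`, `k ≥ 1`, `κ > 0` real and not an integer, `ξ ≠ 0` real, `D ≥ 0`, `η, ε > 0`. There are
`c > 0` and `N₀` such that for all `N ≥ N₀`, `M ≥ b^(η N)` and all real polynomials `P` of degree at most
`D`, all integers `0 ≤ m < M` but at most `b^(-c N) M` have the following property: for all `n ≤ N`
and all `0 ≤ a < b^k` the number of `0 ≤ i < n` such that the digits `i + 1, …, i + k` after the point
of `ξ m ^ κ + P(m)` in base `b` form the integer `a` (that is `⌊b^(i+k) (ξ m ^ κ + P(m))⌋ ≡ a` modulo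
`b^k`) differs from `n / b^k` by at most `ε N`. For `κ = 1/2`, `ξ = 1`, `P = 0` these are the digits
of `√m`. -/
theorem result (b k : ℕ) (hb : 2 ≤ b) (hk : 1 ≤ k) (ξ : ℝ) (hξ : ξ ≠ 0) (κ : ℝ) (hκ0 : 0 < κ)
    (hκ : ∀ i : ℕ, κ ≠ i) (D : ℕ) (η ε : ℝ) (hη : 0 < η) (hε : 0 < ε) :
    ∃ c : ℝ, 0 < c ∧ ∃ N₀ : ℕ, ∀ N : ℕ, N₀ ≤ N → ∀ M : ℕ, (b : ℝ) ^ (η * N) ≤ M →
      ∀ P : ℝ[X], P.natDegree ≤ D →
      (((range M).filter (fun m : ℕ => ¬ ∀ n ≤ N, ∀ a < b ^ k,
        |(((range n).filter (fun i =>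
            ⌊(b : ℝ) ^ (i + k) * (ξ * (m : ℝ) ^ κ + P.eval (m : ℝ))⌋ % (b : ℤ) ^ k = a)).card : ℝ) -
          n / ((b ^ k : ℕ) : ℝ)| ≤ ε * N)).card : ℝ) ≤ (b : ℝ) ^ (-(c * N)) * M :=
  Pool.Agent.W301.RM.freq_roots b k hb hk ξ hξ κ hκ0 hκ D η ε hη hε

end Pool.Agent.Results.MP_0308e6_nt.AlmostAllRoots
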