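import Pool.Agent.W47.JL.Rate2
import Pool.Agent.W591.JL.NF
import Pool.Agent.W409.JL.SQ

/-!
# The joint linear complexity of the digits of a basis of a real number field

The joint linear complexity of the first `L` digits of `n` numbers is the least order of a linear
recurrence over `ℚ` which is satisfied by the first `L` digits of each of them.  For `√2, √3, √6`
it is `3 L / 4 + O(√(L log L))`, and for the members `x_1, …, x_n` of a basis `1, x_1, …, x_n` of a
real number field it is `n L / (n + 1) + O(√(L log L))`, uniformly in the base.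
-/

set_option autoImplicit false

namespace Pool.Agent.Results.MP_0308e6_nt.JointComplexity

open Finset

/-- the `i`-th digit of `x` after the point in base `b` -/
noncomputable def digit (b : ℕ) (x : ℝ) (i : ℕ) : ℤ := ⌊x * (b : ℝ) ^ i⌋ % (b : ℤ)

/-- There is one linear recurrence of order `m` over `ℚ` which the digits `a_1, …, a_L` of each of
the numbers `x_1, …, x_n` satisfy: `a_(i+m) = c_0 a_i + … + c_(m-1) a_(i+m-1)` for
`1 ≤ i ≤ L - m`. -/
def CommonRecurrence (b : ℕ) {n : ℕ} (x : Fin n → ℝ) (L m : ℕ) : Prop :=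
  ∃ c : ℕ → ℚ, ∀ t : Fin n, ∀ i : ℕ, 1 ≤ i → i + m ≤ L →
    (digit b (x t) (i + m) : ℚ) = ∑ j ∈ range m, c j * (digit b (x t) (i + j) : ℚ)

/-- the joint linear complexity over `ℚ` of the first `L` digits of `x_1, …, x_n`: the least order
of a common recurrence -/
noncomputable def jointComplexity (b : ℕ) {n : ℕ} (x : Fin n → ℝ) (L : ℕ) : ℕ :=
  sInf {m | CommonRecurrence b x L m}

/-- (1) There is a constant `C` such that for all `L` and all bases `b ≥ 2` the joint linear
complexity over `ℚ` of the first `L` digits of `√2`, `√3` and `√6` in base `b` differs from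
`3 L / 4` by at most `C √((L+1) log (L+2))`.

(2) More generally, if `1, x_1, …, x_n` is a basis over `ℚ` of a real number field of degree
`n + 1 ≥ 2`, then there is a constant `C` such that for all `L` and all bases `b ≥ 2` the joint
linear complexity over `ℚ` of the first `L` digits of `x_1, …, x_n` in base `b` differs from
`n L / (n + 1)` by at most `C √((L+1) log (L+2))`. -/
theorem result :
    (∃ C : ℝ, ∀ L b : ℕ, 2 ≤ b →
      |(jointComplexity b (![Real.sqrt 2, Real.sqrt 3, Real.sqrt 6] : Fin 3 → ℝ) L : ℝ) - 3 * L / 4|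
        ≤ C * Real.sqrt (((L : ℝ) + 1) * Real.log ((L : ℝ) + 2))) ∧
    (∀ (n : ℕ) (K : IntermediateField ℚ ℝ) (x : Fin n → ℝ), 1 ≤ n →
      Module.finrank ℚ K = n + 1 → (∀ s, x s ∈ K) →
      LinearIndependent ℚ (Fin.cons 1 x : Fin (n + 1) → ℝ) →
      ∃ C : ℝ, ∀ L b : ℕ, 2 ≤ b →
        |(jointComplexity b x L : ℝ) - n * L / (n + 1)|
          ≤ C * Real.sqrt (((L : ℝ) + 1) * Real.log ((L : ℝ) + 2))) := by
  have h : ∀ (n : ℕ) (K : IntermediateField ℚ ℝ) (x : Fin n → ℝ), 1 ≤ n →
      Module.finrank ℚ K = n + 1 → (∀ s, x s ∈ K) →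
      LinearIndependent ℚ (Fin.cons 1 x : Fin (n + 1) → ℝ) →
      ∃ C : ℝ, ∀ L b : ℕ, 2 ≤ b →
        |(jointComplexity b x L : ℝ) - n * L / (n + 1)|
          ≤ C * Real.sqrt (((L : ℝ) + 1) * Real.log ((L : ℝ) + 2)) := by
    intro n K x hn hK hx hli
    obtain ⟨c, hc, hM⟩ := Pool.Agent.W591.JL.nf n K x hn hK hx hli
    obtain ⟨C, _, hC⟩ := Pool.Agent.W47.JL.jointRate hn x c hc hM
    exact ⟨C, fun L b hb => hC L b hb⟩
  refine ⟨?_, h⟩
  obtain ⟨K, hK, hx, hli⟩ := Pool.Agent.W409.JL.sq
  obtain ⟨C, hC⟩ := h 3 K _ (by norm_num) hK hx hli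
  refine ⟨C, fun L b hb => ?_⟩
  have h1 := hC L b hb
  push_cast at h1
  rw [show (3 : ℝ) + 1 = 4 by norm_num] at h1
  exact h1

end Pool.Agent.Results.MP_0308e6_nt.JointComplexity
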