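import Pool.Agent.W288.LM.Fin

/-!
# Logarithmic means and windows for the binary digits of the square root of two

No hypothesis is assumed.  Write `N_v n` for the number of `k` in `[1, n]` whose binary digit
`b_k` of `√2` is `v`, where `v = 0` or `v = 1`.  For every `ε > 0`:

* there is `C` such that for all `1 ≤ m ≤ n` the sum of `1 / √k` over the `k` in `(m, n]` with
  `b_k = v`, plus `N_v m / √m`, is at least `(√(2 / π) - ε) log (n / m) - C`;
* the sum of `1 / √k` over the `k` in `[1, n]` with `b_k = v` is at least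
  `(√(2 / π) - ε) log n` for all large `n`;
* there is `L` such that every interval `[m, L m]` holds a `t` with
  `N_v t ≥ (√(8 / π) - ε) √t`.

The same is proved for the digit sums, and the sums of complementary digits, of every real
quadratic irrational in every base.
-/

set_option autoImplicit false

open Finset

namespace Pool.Agent.Results.MP_0308e6_nt.LogarithmicMeans

/-- the `k`-th digit of `ξ` after the point in base `b` -/
noncomputable def digit (b : ℕ) (ξ : ℝ) (k : ℕ) : ℤ := ⌊ξ * (b : ℝ) ^ k⌋ % (b : ℤ)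

/-- Three lower bounds with constant `s` for a sequence `f 1, f 2, …`. -/
def Bounds (f : ℕ → ℝ) (s : ℝ) : Prop :=
  (∀ ε : ℝ, 0 < ε → ∃ C : ℝ, ∀ m n : ℕ, 1 ≤ m → m ≤ n →
    (s - ε) * Real.log ((n : ℝ) / m) - C ≤
      ∑ i ∈ Ioc m n, f i / Real.sqrt i + (∑ k ∈ Icc 1 m, f k) / Real.sqrt m) ∧
  (∀ ε : ℝ, 0 < ε → ∃ n₀ : ℕ, ∀ n : ℕ, n₀ ≤ n →
    (s - ε) * Real.log n ≤ ∑ i ∈ Icc 1 n, f i / Real.sqrt i) ∧
  (∀ ε : ℝ, 0 < ε → ∃ L : ℕ, ∀ m : ℕ, 1 ≤ m → ∃ t : ℕ, m ≤ t ∧ t ≤ L * m ∧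
    (2 * s - ε) * Real.sqrt t ≤ ∑ k ∈ Icc 1 t, f k)

/-- The result. -/
theorem result :
    Bounds (fun k => if digit 2 (Real.sqrt 2) k = 0 then 1 else 0) (Real.sqrt (2 / Real.pi)) ∧
    Bounds (fun k => if digit 2 (Real.sqrt 2) k = 1 then 1 else 0) (Real.sqrt (2 / Real.pi)) ∧
    (∀ b : ℕ, 2 ≤ b → ∀ A B C : ℤ, 0 < A → ∀ ξ : ℝ, Irrational ξ →
      (A : ℝ) * ξ ^ 2 + B * ξ + C = 0 →
        Bounds (fun k => (digit b ξ k : ℝ))
          (Real.sqrt (((b : ℝ) - 1) * (Int.gcd b (2 * A) : ℕ) / (Real.pi * A))) ∧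
        Bounds (fun k => (b : ℝ) - 1 - (digit b ξ k : ℝ))
          (Real.sqrt (((b : ℝ) - 1) * (Int.gcd b (2 * A) : ℕ) / (Real.pi * A)))) := by
  have hmain : ∀ b : ℕ, 2 ≤ b → ∀ A B C : ℤ, 0 < A → ∀ ξ : ℝ, Irrational ξ →
      (A : ℝ) * ξ ^ 2 + B * ξ + C = 0 →
        Bounds (fun k => (digit b ξ k : ℝ))
          (Real.sqrt (((b : ℝ) - 1) * (Int.gcd b (2 * A) : ℕ) / (Real.pi * A))) ∧
        Bounds (fun k => (b : ℝ) - 1 - (digit b ξ k : ℝ))
          (Real.sqrt (((b : ℝ) - 1) * (Int.gcd b (2 * A) : ℕ) / (Real.pi * A))) :=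
    fun b hb A B C hA ξ hξ hq => Pool.Agent.W288.LM.good_both hb hA hξ hq
  have h2 := hmain 2 le_rfl 1 0 (-2) one_pos (Real.sqrt 2) irrational_sqrt_two (by
      push_cast
      rw [Real.sq_sqrt (by norm_num)]; norm_num)
  have hc : (((2 : ℕ) : ℝ) - 1) * (Int.gcd (2 : ℕ) (2 * 1) : ℕ) / (Real.pi * ((1 : ℤ) : ℝ)) =
      2 / Real.pi := by
    have e1 : Int.gcd (2 : ℕ) (2 * 1) = 2 := by decide
    rw [e1]
    norm_num
  rw [hc] at h2
  have hd : ∀ k, digit 2 (Real.sqrt 2) k = 0 ∨ digit 2 (Real.sqrt 2) k = 1 := by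
    intro k
    unfold digit
    push_cast
    omega
  have e1 : (fun k => (digit 2 (Real.sqrt 2) k : ℝ)) =
      fun k => if digit 2 (Real.sqrt 2) k = 1 then (1 : ℝ) else 0 := by
    funext k
    rcases hd k with h | h <;> rw [h] <;> norm_num
  have e0 : (fun k => ((2 : ℕ) : ℝ) - 1 - (digit 2 (Real.sqrt 2) k : ℝ)) =
      fun k => if digit 2 (Real.sqrt 2) k = 0 then (1 : ℝ) else 0 := by
    funext k
    rcases hd k with h | h <;> rw [h] <;> norm_num
  rw [e1, e0] at h2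
  exact ⟨h2.2, h2.1, hmain⟩

end Pool.Agent.Results.MP_0308e6_nt.LogarithmicMeans
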