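import Pool.Agent.W261.NM.Fin2

/-!
# The digits of the multiples of an algebraic irrational number beyond the scale `log N`

Let `ξ` be a real algebraic irrational number, for instance `√2`, `b ≥ 2`, for instance `2`, and
`C > 0` arbitrarily large.  The first `C log N` digits in base `b` of the numbers `F(m)`, `m < N`
(`F` any real polynomial with leading coefficient `ξ`, for instance `F(m) = m ξ` or `x + m² ξ`), and
of the numbers `x + p ξ`, where `p` runs through the first `N` primes, behave like random digits: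
any fixed number of windows of length `c log N` is uniformly distributed up to a power of `N`; for
almost all `m` all initial segments have the right frequencies of all blocks with square root
accuracy; and the digit sums obey the central limit theorem.
-/

set_option autoImplicit false
open Filter Topology Set Finset
open Pool.Agent.W261.NM

namespace Pool.Agent.Results.MP_0308e6_nt.RandomLikeMultiples

open Classical in
/-- Let `ξ` be real, algebraic and irrational, `b ≥ 2`, `k ≥ 1` and `C > 0`. Let `Fam ξ k` be the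
set of the sequences `F(m)`, `F` a real polynomial of degree `k` with leading coefficient `ξ`, and
`x + ξ p_m`, `p_m` the `m`-th prime, `x` real. (1) For every `s ≥ 1` there are `c > 0` and `N₀` such
that for all `N ≥ N₀`, `y ∈ Fam ξ k`, `1 ≤ ℓ ≤ c log N` and disjoint windows
`n_j + 1, …, n_j + ℓ` of places, `n_j ≤ C log N`, the tuples of the words of `y_m`, `m < N`, in these
windows hit every set `A` with the right frequency up to an error `N^(1-c)`. (2) For all `l`, `A`,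
`ε > 0` and all large `N`: for all but `N / (log N)^A` of the `m < N`, every block of `l` digits
starts at `K / b^l + O(K^(1/2+ε))` of the first `K` places of `y_m`, for all
`(log N)^ε ≤ K ≤ C log N`. (3) If `K(N) → ∞`, `K(N) ≤ C log N`, the sums of the first `K(N)` digits
of `y_m`, `m < N`, obey the central limit theorem. -/
theorem result (ξ : ℝ) (hξ : IsAlgebraic ℚ ξ) (hirr : Irrational ξ) (b : ℕ) (hb : 2 ≤ b)
    (k : ℕ) (hk : 1 ≤ k) (C : ℝ) (hC : 0 < C) :
    (∀ s : ℕ, 1 ≤ s → ∃ c : ℝ, 0 < c ∧ ∃ N0 : ℕ, ∀ N : ℕ, N0 ≤ N → ∀ y ∈ Fam ξ k, ∀ ℓ : ℕ, 1 ≤ ℓ →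
      (ℓ : ℝ) ≤ c * Real.log N → ∀ n : Fin s → ℕ, (∀ j, (n j : ℝ) ≤ C * Real.log N) →
      (∀ i j, i ≠ j → n i + ℓ ≤ n j ∨ n j + ℓ ≤ n i) →
      ∀ A : Finset (Fin s → ℤ), A ⊆ Fintype.piFinset (fun _ => Finset.Ico (0 : ℤ) ((b : ℤ) ^ ℓ)) →
      |(((Finset.range N).filter (fun m : ℕ =>
          (fun j => ⌊(b : ℝ) ^ (n j + ℓ) * y m⌋ % (b : ℤ) ^ ℓ) ∈ A)).card : ℝ) -
        A.card / (b : ℝ) ^ (s * ℓ) * N| ≤ (N : ℝ) ^ (1 - c)) ∧
    (∀ (l : ℕ) (A ε : ℝ), 0 < ε → ∃ N0 : ℕ, ∀ N : ℕ, N0 ≤ N → ∀ y ∈ Fam ξ k,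
      ((((Finset.range N).filter (fun m => ∃ K : ℕ, Real.log N ^ ε ≤ K ∧ (K : ℝ) ≤ C * Real.log N ∧
        ∃ w : Fin l → ℤ, (∀ i, 0 ≤ w i ∧ w i < b) ∧ (K : ℝ) ^ ((1 : ℝ) / 2 + ε) <
          |(occ b w (y m) K : ℝ) - (K : ℝ) / (b : ℝ) ^ l|)).card : ℕ) : ℝ) ≤
        N / Real.log N ^ A) ∧
    (∀ K : ℕ → ℕ, Tendsto K atTop atTop → (∀ᶠ N : ℕ in atTop, (K N : ℝ) ≤ C * Real.log N) →
      ∀ y : ℕ → ℕ → ℝ, (∀ N, y N ∈ Fam ξ k) → ∀ u : ℝ,
      Tendsto (fun N : ℕ => ((((Finset.range N).filter (fun m =>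
        ((∑ k ∈ Finset.range (K N), dig b (y N m) (k + 1) : ℤ) : ℝ) ≤
          (K N : ℝ) * ((b : ℝ) - 1) / 2 + u * Real.sqrt ((K N : ℝ) * ((b : ℝ) ^ 2 - 1) / 12))).card
            : ℕ) : ℝ) / N) atTop
      (𝓝 ((ProbabilityTheory.gaussianReal 0 1 (Set.Iic u)).toReal))) := by
  have hW := wy_fam b hb ξ hξ hirr k hk
  have hG : Good b (Fam ξ k) := good_of_wy Pool.Agent.W991.NM.ind b hb _ hW
  refine ⟨fun s hs => win_of_wy b hb _ hW C hC s hs, fun l A ε hε => ?_, fun K hK hKC y hy u => ?_⟩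
  · exact freq_of_good Pool.Agent.W349.NM.MOM.main b hb _ hG l C A ε hC hε
  · exact clt_of_good Pool.Agent.W930.NM.clt b hb _ hG C hC K hK hKC y hy u

end Pool.Agent.Results.MP_0308e6_nt.RandomLikeMultiples
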